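import Mathlib

/-!
The Pythagorean-type inequality for isoperimetric profiles fails for the uniform law on the
unit square.
-/

set_option autoImplicit false
open MeasureTheory Metric Set Filter Topology ENNReal

namespace Pool.Agent.Results.MP_662df3_gt.SquareCounterexample

/-- the boundary measure `liminf (μ (A_r) - μ A) / r` as `r → 0+` -/
noncomputable def bdry {X : Type*} [PseudoMetricSpace X] [MeasurableSpace X] (μ : Measure X)
    (A : Set X) : ℝ≥0∞ :=
  liminf (fun r : ℝ => (μ (thickening r A) - μ A) / ENNReal.ofReal r) (𝓝[>] 0)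

/-- the isoperimetric profile, with values `0` at `0` and `1` -/
noncomputable def prof {X : Type*} [PseudoMetricSpace X] [MeasurableSpace X] (μ : Measure X)
    (a : ℝ) : ℝ≥0∞ :=
  if a = 0 ∨ a = 1 then 0
  else ⨅ (A : Set X) (_ : MeasurableSet A) (_ : μ A = ENNReal.ofReal a), bdry μ A

/-- the ratio `I(a) / a` -/
noncomputable def ratio {X : Type*} [PseudoMetricSpace X] [MeasurableSpace X] (μ : Measure X)
    (a : ℝ) : ℝ≥0∞ := prof μ a / ENNReal.ofReal a

/-- symmetric log-concave probability laws on the line -/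
def IsSymLogConcave (μ : Measure ℝ) : Prop :=
  IsProbabilityMeasure μ ∧ (∀ A : Set ℝ, MeasurableSet A → μ ((fun x => -x) ⁻¹' A) = μ A) ∧
    ∃ f : ℝ → ℝ, Measurable f ∧ (∀ x, 0 ≤ f x) ∧
      (∀ x y t : ℝ, 0 < t → t < 1 → f x ^ (1 - t) * f y ^ t ≤ f ((1 - t) * x + t * y)) ∧
      μ = volume.withDensity (fun x => ENNReal.ofReal (f x))

/-- the product law on the Euclidean plane -/
noncomputable def prodE (μ₁ μ₂ : Measure ℝ) : Measure (EuclideanSpace ℝ (Fin 2)) :=
  (μ₁.prod μ₂).map (fun p : ℝ × ℝ => !₂[p.1, p.2])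

/-- the interval -/
def J : Set ℝ := Icc (-(1 / 2)) (1 / 2)

/-- the uniform law -/
noncomputable def unif : Measure ℝ := volume.restrict J

theorem J_meas : MeasurableSet J := measurableSet_Icc

theorem unif_univ : unif univ = 1 := by
  unfold unif J
  rw [Measure.restrict_apply_univ, Real.volume_Icc]
  norm_num

theorem unif_apply {A : Set ℝ} (hA : MeasurableSet A) : unif A = volume (A ∩ J) :=
  Measure.restrict_apply hA

theorem unif_lc : IsSymLogConcave unif := by
  refine ⟨⟨unif_univ⟩, ?_, J.indicator (fun _ => 1), ?_, ?_, ?_, ?_⟩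
  · intro A hA
    rw [unif_apply (measurable_neg hA), unif_apply hA]
    have : (fun x : ℝ => -x) ⁻¹' A ∩ J = (fun x : ℝ => -x) ⁻¹' (A ∩ J) := by
      ext x
      simp only [J, mem_inter_iff, mem_preimage, mem_Icc]
      constructor
      · rintro ⟨h1, h2, h3⟩; exact ⟨h1, by linarith, by linarith⟩
      · rintro ⟨h1, h2, h3⟩; exact ⟨h1, by linarith, by linarith⟩
    rw [this]
    exact (Measure.measurePreserving_neg volume).measure_preimage
      (hA.inter J_meas).nullMeasurableSet
  · exact measurable_const.indicator J_meas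
  · intro x
    exact indicator_nonneg (fun _ _ => zero_le_one) x
  · intro x y t ht ht1
    by_cases hx : x ∈ J
    · by_cases hy : y ∈ J
      · have hxy : (1 - t) * x + t * y ∈ J := by
          have := (convex_Icc (-(1 / 2) : ℝ) (1 / 2)) hx hy (by linarith : 0 ≤ 1 - t) ht.le
            (by ring)
          simpa [J] using this
        rw [indicator_of_mem hx, indicator_of_mem hy, indicator_of_mem hxy]
        simp
      · rw [indicator_of_notMem hy, Real.zero_rpow ht.ne', mul_zero]
        exact indicator_nonneg (fun _ _ => zero_le_one) _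
    · rw [indicator_of_notMem hx, Real.zero_rpow (by linarith), zero_mul]
      exact indicator_nonneg (fun _ _ => zero_le_one) _
  · have : (fun x => ENNReal.ofReal (J.indicator (fun _ => (1 : ℝ)) x)) = J.indicator 1 := by
      ext x
      by_cases hx : x ∈ J
      · simp [hx]
      · simp [hx]
    rw [this, withDensity_indicator_one J_meas]
    rfl

/-- one-dimensional lower bound for enlargements -/
theorem enlarge {B : Set ℝ} {a : ℝ} (ha : 0 < a)
    (hBa : volume (B ∩ J) = ENNReal.ofReal a) {r : ℝ} (hr : 0 < r) (hra : a + r ≤ 1) :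
    ENNReal.ofReal (a + r) ≤ volume (thickening r B ∩ J) := by
  have hsub : B ∩ J ⊆ thickening r B ∩ J :=
    inter_subset_inter_left _ (self_subset_thickening hr B)
  by_cases hfull : J ⊆ thickening r B
  · rw [inter_eq_self_of_subset_right hfull]
    unfold J
    rw [Real.volume_Icc]
    apply ENNReal.ofReal_le_ofReal
    linarith
  · obtain ⟨z, hzJ, hz⟩ := not_subset.1 hfull
    have hzB : ∀ b ∈ B, r ≤ |z - b| := by
      intro b hb
      by_contra h
      push Not at h
      exact hz (mem_thickening_iff.2 ⟨b, hb, by rw [Real.dist_eq]; exact h⟩)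
    have hne : (B ∩ J).Nonempty := by
      by_contra h
      rw [not_nonempty_iff_eq_empty] at h
      rw [h, measure_empty] at hBa
      have := ENNReal.ofReal_pos.2 ha
      rw [← hBa] at this
      exact lt_irrefl _ this
    obtain ⟨b, hbB, hbJ⟩ := hne
    -- an interval of length r in the enlargement, disjoint from B
    have key : ∃ u : ℝ, Ioo u (u + r) ⊆ thickening r B ∩ J ∧ Disjoint (B ∩ J) (Ioo u (u + r)) := by
      have hb := hzB b hbB
      rcases le_total z b with hzb | hzb
      · -- b is to the right of z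
        set S := B ∩ J ∩ Ici z with hS
        have hSne : S.Nonempty := ⟨b, ⟨hbB, hbJ⟩, hzb⟩
        have hSb : BddBelow S := ⟨z, fun x hx => hx.2⟩
        set s := sInf S with hs
        have hsz : z + r ≤ s := by
          apply le_csInf hSne
          rintro x ⟨⟨hxB, -⟩, hxz⟩
          have := hzB x hxB
          rw [abs_of_nonpos (by have : z ≤ x := hxz; linarith)] at this
          linarith
        have hsb : s ≤ b := csInf_le hSb ⟨⟨hbB, hbJ⟩, hzb⟩
        refine ⟨s - r, ?_, ?_⟩
        · rintro y ⟨hy1, hy2⟩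
          rw [sub_add_cancel] at hy2
          refine ⟨?_, ?_⟩
          · obtain ⟨c, hc, hcy⟩ := exists_lt_of_csInf_lt hSne (show sInf S < y + r by linarith)
            have hcs : s ≤ c := csInf_le hSb hc
            refine mem_thickening_iff.2 ⟨c, hc.1.1, ?_⟩
            rw [Real.dist_eq, abs_of_nonpos (by linarith)]
            linarith
          · exact ⟨by linarith [hzJ.1], by linarith [hbJ.2]⟩
        · rw [Set.disjoint_left]
          rintro x ⟨hxB, hxJ⟩ ⟨hx1, hx2⟩
          rw [sub_add_cancel] at hx2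
          have : x ∈ S := ⟨⟨hxB, hxJ⟩, by have : z ≤ x := by linarith
                                          exact this⟩
          have := csInf_le hSb this
          linarith
      · set S := B ∩ J ∩ Iic z with hS
        have hSne : S.Nonempty := ⟨b, ⟨hbB, hbJ⟩, hzb⟩
        have hSb : BddAbove S := ⟨z, fun x hx => hx.2⟩
        set s := sSup S with hs
        have hsz : s ≤ z - r := by
          apply csSup_le hSne
          rintro x ⟨⟨hxB, -⟩, hxz⟩
          have := hzB x hxB
          rw [abs_of_nonneg (by have : x ≤ z := hxz; linarith)] at this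
          linarith
        have hsb : b ≤ s := le_csSup hSb ⟨⟨hbB, hbJ⟩, hzb⟩
        refine ⟨s, ?_, ?_⟩
        · rintro y ⟨hy1, hy2⟩
          refine ⟨?_, ?_⟩
          · obtain ⟨c, hc, hcy⟩ := exists_lt_of_lt_csSup hSne (show y - r < sSup S by linarith)
            have hcs : c ≤ s := le_csSup hSb hc
            refine mem_thickening_iff.2 ⟨c, hc.1.1, ?_⟩
            rw [Real.dist_eq, abs_of_nonneg (by linarith)]
            linarith
          · exact ⟨by linarith [hbJ.1], by linarith [hzJ.2]⟩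
        · rw [Set.disjoint_left]
          rintro x ⟨hxB, hxJ⟩ ⟨hx1, hx2⟩
          have : x ∈ S := ⟨⟨hxB, hxJ⟩, by have : x ≤ z := by linarith
                                          exact this⟩
          have := le_csSup hSb this
          linarith
    obtain ⟨u, hu1, hu2⟩ := key
    calc ENNReal.ofReal (a + r) = ENNReal.ofReal a + ENNReal.ofReal r :=
          ENNReal.ofReal_add ha.le hr.le
      _ = volume (B ∩ J) + volume (Ioo u (u + r)) := by
          rw [hBa, Real.volume_Ioo, add_sub_cancel_left]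
      _ = volume (B ∩ J ∪ Ioo u (u + r)) := (measure_union hu2 measurableSet_Ioo).symm
      _ ≤ volume (thickening r B ∩ J) := measure_mono (union_subset hsub hu1)

theorem bdry_unif {A : Set ℝ} (hA : MeasurableSet A) {a : ℝ} (ha : 0 < a) (ha1 : a < 1)
    (hAa : unif A = ENNReal.ofReal a) : 1 ≤ bdry unif A := by
  unfold bdry
  apply le_liminf_of_le
  · isBoundedDefault
  · have h1 : ∀ᶠ r : ℝ in 𝓝[>] 0, r < 1 - a :=
      mem_nhdsWithin_of_mem_nhds (Iio_mem_nhds (by linarith))
    filter_upwards [h1, self_mem_nhdsWithin] with r hr hr0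
    have hr0' : 0 < r := hr0
    rw [unif_apply hA] at hAa
    have h2 := enlarge ha hAa hr0' (by linarith)
    rw [unif_apply isOpen_thickening.measurableSet, unif_apply hA, hAa]
    rw [ENNReal.le_div_iff_mul_le (Or.inl (by simpa using hr0')) (Or.inl ENNReal.ofReal_ne_top),
      one_mul]
    apply ENNReal.le_sub_of_add_le_right ENNReal.ofReal_ne_top
    rw [← ENNReal.ofReal_add hr0'.le ha.le, add_comm r a]
    exact h2

theorem ratio_unif {a : ℝ} (ha : 0 < a) (ha1 : a < 1) : 1 ≤ ratio unif a := by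
  unfold ratio prof
  rw [if_neg (by rintro (h | h) <;> linarith)]
  rw [ENNReal.le_div_iff_mul_le (Or.inl (by simpa using ha)) (Or.inl ENNReal.ofReal_ne_top),
    one_mul]
  refine le_trans ?_ (le_iInf fun A => le_iInf fun hA => le_iInf fun hAa =>
    bdry_unif hA ha ha1 hAa)
  rw [← ENNReal.ofReal_one]
  exact ENNReal.ofReal_le_ofReal ha1.le

/-- the embedding of the product in the Euclidean plane -/
def emb (p : ℝ × ℝ) : EuclideanSpace ℝ (Fin 2) := !₂[p.1, p.2]

theorem emb_meas : Measurable emb := by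
  have h : Continuous emb := by
    unfold emb
    refine (PiLp.continuous_toLp 2 _).comp ?_
    refine continuous_pi fun i => ?_
    fin_cases i
    · exact continuous_fst
    · exact continuous_snd
  exact h.measurable

/-- complement of a quadrant -/
def Q (c : ℝ) : Set (EuclideanSpace ℝ (Fin 2)) := {p | p 0 ≤ c ∨ p 1 ≤ c}

/-- the open version -/
def Q' (c : ℝ) : Set (EuclideanSpace ℝ (Fin 2)) := {p | p 0 < c ∨ p 1 < c}

instance prob : IsProbabilityMeasure unif := ⟨unif_univ⟩

instance probE : IsProbabilityMeasure (prodE unif unif) := by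
  unfold prodE
  exact Measure.isProbabilityMeasure_map emb_meas.aemeasurable

theorem prodE_rect {s t : Set ℝ} (U : Set (EuclideanSpace ℝ (Fin 2))) (hU : MeasurableSet U)
    (h : emb ⁻¹' U = s ×ˢ t) : prodE unif unif U = unif s * unif t := by
  unfold prodE
  change (Measure.map emb (unif.prod unif)) U = _
  rw [Measure.map_apply emb_meas hU, h, Measure.prod_prod]

theorem Q_meas (c : ℝ) : MeasurableSet (Q c) := by
  have h0 : Continuous fun p : EuclideanSpace ℝ (Fin 2) => p 0 := by fun_prop
  have h1 : Continuous fun p : EuclideanSpace ℝ (Fin 2) => p 1 := by fun_prop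
  exact (isClosed_le h0 continuous_const).measurableSet.union
    (isClosed_le h1 continuous_const).measurableSet

theorem Q'_meas (c : ℝ) : MeasurableSet (Q' c) := by
  have h0 : Continuous fun p : EuclideanSpace ℝ (Fin 2) => p 0 := by fun_prop
  have h1 : Continuous fun p : EuclideanSpace ℝ (Fin 2) => p 1 := by fun_prop
  exact (isOpen_lt h0 continuous_const).measurableSet.union
    (isOpen_lt h1 continuous_const).measurableSet

theorem unif_Ioi {s : ℝ} (hs1 : s ≤ 1) : unif (Ioi (1 / 2 - s)) = ENNReal.ofReal s := by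
  rw [unif_apply measurableSet_Ioi]
  have : Ioi (1 / 2 - s) ∩ J = Ioc (1 / 2 - s) (1 / 2) := by
    ext x
    simp only [J, mem_inter_iff, mem_Ioi, mem_Icc, mem_Ioc]
    constructor
    · rintro ⟨h1, h2, h3⟩; exact ⟨h1, h3⟩
    · rintro ⟨h1, h2⟩; exact ⟨h1, by linarith, h2⟩
  rw [this, Real.volume_Ioc]
  congr 1
  ring

theorem unif_Ici {s : ℝ} (hs1 : s ≤ 1) : unif (Ici (1 / 2 - s)) = ENNReal.ofReal s := by
  rw [unif_apply measurableSet_Ici]
  have : Ici (1 / 2 - s) ∩ J = Icc (1 / 2 - s) (1 / 2) := by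
    ext x
    simp only [J, mem_inter_iff, mem_Ici, mem_Icc]
    constructor
    · rintro ⟨h1, h2, h3⟩; exact ⟨h1, h3⟩
    · rintro ⟨h1, h2⟩; exact ⟨h1, by linarith, h2⟩
  rw [this, Real.volume_Icc]
  congr 1
  ring

theorem meas_Q {s : ℝ} (hs : 0 ≤ s) (hs1 : s ≤ 1) :
    prodE unif unif (Q (1 / 2 - s)) = ENNReal.ofReal (1 - s ^ 2) := by
  have h1 : prodE unif unif (Q (1 / 2 - s))ᶜ = ENNReal.ofReal (s ^ 2) := by
    rw [prodE_rect (s := Ioi (1 / 2 - s)) (t := Ioi (1 / 2 - s)) _ (Q_meas _).compl, unif_Ioi hs1,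
      ← ENNReal.ofReal_mul hs, sq]
    ext p
    simp [Q, emb]
  have h2 := prob_compl_eq_one_sub (μ := prodE unif unif) (Q_meas (1 / 2 - s)).compl
  rw [compl_compl, h1] at h2
  rw [h2, ← ENNReal.ofReal_one, ← ENNReal.ofReal_sub _ (sq_nonneg s)]

theorem meas_Q' {s : ℝ} (hs : 0 ≤ s) (hs1 : s ≤ 1) :
    prodE unif unif (Q' (1 / 2 - s)) = ENNReal.ofReal (1 - s ^ 2) := by
  have h1 : prodE unif unif (Q' (1 / 2 - s))ᶜ = ENNReal.ofReal (s ^ 2) := by
    rw [prodE_rect (s := Ici (1 / 2 - s)) (t := Ici (1 / 2 - s)) _ (Q'_meas _).compl, unif_Ici hs1,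
      ← ENNReal.ofReal_mul hs, sq]
    ext p
    rw [mem_prod, mem_Ici, mem_Ici]
    simp [Q', emb]
  have h2 := prob_compl_eq_one_sub (μ := prodE unif unif) (Q'_meas (1 / 2 - s)).compl
  rw [compl_compl, h1] at h2
  rw [h2, ← ENNReal.ofReal_one, ← ENNReal.ofReal_sub _ (sq_nonneg s)]

theorem thick_sub (c : ℝ) {r : ℝ} : thickening r (Q c) ⊆ Q' (c + r) := by
  intro p hp
  obtain ⟨q, hq, hpq⟩ := mem_thickening_iff.1 hp
  have hd : ∀ i, |p i - q i| < r := by
    intro i
    refine lt_of_le_of_lt ?_ hpq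
    rw [EuclideanSpace.dist_eq]
    rw [← Real.sqrt_sq_eq_abs]
    apply Real.sqrt_le_sqrt
    have := Finset.single_le_sum (f := fun i => dist (p i) (q i) ^ 2)
      (fun i _ => sq_nonneg _) (Finset.mem_univ i)
    simp only [Real.dist_eq, sq_abs] at this ⊢
    exact this
  rcases hq with hq | hq
  · left
    have := (abs_lt.1 (hd 0)).2
    linarith
  · right
    have := (abs_lt.1 (hd 1)).2
    linarith

theorem bdry_Q {s : ℝ} (hs : 0 < s) (hs1 : s ≤ 1) :
    bdry (prodE unif unif) (Q (1 / 2 - s)) ≤ ENNReal.ofReal (2 * s) := by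
  unfold bdry
  have h1 : ∀ᶠ r : ℝ in 𝓝[>] 0, (prodE unif unif (thickening r (Q (1 / 2 - s))) -
      prodE unif unif (Q (1 / 2 - s))) / ENNReal.ofReal r ≤ ENNReal.ofReal (2 * s) := by
    have h1 : ∀ᶠ r : ℝ in 𝓝[>] 0, r < s :=
      mem_nhdsWithin_of_mem_nhds (Iio_mem_nhds hs)
    filter_upwards [h1, self_mem_nhdsWithin] with r hr hr0
    have hr0' : 0 < r := hr0
    apply ENNReal.div_le_of_le_mul
    rw [meas_Q hs.le hs1]
    have h2 : prodE unif unif (thickening r (Q (1 / 2 - s))) ≤
        ENNReal.ofReal (1 - (s - r) ^ 2) := by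
      rw [← meas_Q' (s := s - r) (by linarith) (by linarith)]
      apply measure_mono
      have e : 1 / 2 - (s - r) = 1 / 2 - s + r := by ring
      rw [e]
      exact thick_sub _
    refine (tsub_le_tsub_right h2 _).trans ?_
    rw [← ENNReal.ofReal_sub _ (by nlinarith), ← ENNReal.ofReal_mul (by linarith)]
    apply ENNReal.ofReal_le_ofReal
    nlinarith
  have h2 := liminf_le_liminf h1
  rwa [liminf_const] at h2

theorem ratio_prod {a : ℝ} (ha : 15 / 16 ≤ a) (ha1 : a < 1) :
    ratio (prodE unif unif) a ≤ ENNReal.ofReal (8 / 15) := by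
  set s := Real.sqrt (1 - a) with hs
  have hs0 : 0 < s := Real.sqrt_pos.2 (by linarith)
  have hs2 : s ^ 2 = 1 - a := Real.sq_sqrt (by linarith)
  have hs4 : s ≤ 1 / 4 := by
    rw [hs]
    apply Real.sqrt_le_iff.2
    constructor
    · norm_num
    · linarith
  unfold ratio prof
  rw [if_neg (by rintro (h | h) <;> linarith)]
  apply ENNReal.div_le_of_le_mul
  refine (iInf_le _ (Q (1 / 2 - s))).trans ((iInf_le _ (Q_meas _)).trans ((iInf_le _ ?_).trans ?_))
  · rw [meas_Q hs0.le (by linarith), hs2]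
    congr 1
    ring
  · refine (bdry_Q hs0 (by linarith)).trans ?_
    rw [← ENNReal.ofReal_mul (by norm_num)]
    apply ENNReal.ofReal_le_ofReal
    linarith

/-- For the uniform law on `[-1/2, 1/2]` (both factors) the Pythagorean-type inequality fails for
every `a` in `[15/16, 1)`. -/
theorem result : ∃ μ₁ μ₂ : Measure ℝ, IsSymLogConcave μ₁ ∧ IsSymLogConcave μ₂ ∧
    ∀ a : ℝ, 15 / 16 ≤ a → a < 1 →
      ratio (prodE μ₁ μ₂) a ^ 2 <
        ⨅ (a₁ : ℝ) (a₂ : ℝ) (_ : 0 < a₁ ∧ a₁ ≤ 1 ∧ 0 < a₂ ∧ a₂ ≤ 1 ∧ a₁ * a₂ = a),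
          (ratio μ₁ a₁ ^ 2 + ratio μ₂ a₂ ^ 2) := by
  refine ⟨unif, unif, unif_lc, unif_lc, fun a ha ha1 => ?_⟩
  have h1 := ratio_prod ha ha1
  have h2 : ratio (prodE unif unif) a ^ 2 ≤ ENNReal.ofReal (8 / 15) ^ 2 := by gcongr
  refine lt_of_le_of_lt h2 ?_
  have h3 : ENNReal.ofReal (8 / 15) ^ 2 < 1 := by
    rw [← ENNReal.ofReal_pow (by norm_num), ← ENNReal.ofReal_one]
    rw [ENNReal.ofReal_lt_ofReal_iff one_pos]
    norm_num
  refine lt_of_lt_of_le h3 ?_
  refine le_iInf fun a₁ => le_iInf fun a₂ => le_iInf fun h => ?_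
  obtain ⟨h0, h1', h0', h1'', hmul⟩ := h
  rcases lt_or_eq_of_le h1' with h | h
  · have := ratio_unif h0 h
    calc (1 : ℝ≥0∞) = 1 ^ 2 := by norm_num
      _ ≤ ratio unif a₁ ^ 2 := by gcongr
      _ ≤ _ := le_self_add
  · have ha2 : a₂ < 1 := by
      rw [h, one_mul] at hmul
      linarith
    have := ratio_unif h0' ha2
    calc (1 : ℝ≥0∞) = 1 ^ 2 := by norm_num
      _ ≤ ratio unif a₂ ^ 2 := by gcongr
      _ ≤ _ := le_add_self

end Pool.Agent.Results.MP_662df3_gt.SquareCounterexample
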